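import Pool.Agent.W5h26.BM.Sys

/-!
# The centre of the L-function of the cohomology of odd degree
-/

set_option autoImplicit false

open MeasureTheory Filter Topology Set Complex
open scoped ENNReal
open Pool.Agent.TH942.ES
open Pool.Agent.TH942.SL
open Pool.Agent.TH270.MS
open Pool.Agent.TH270.RS (cS' dat' DD_neg)
open Pool.Agent.W5h26.ML
open Pool.Agent.W5h26.OS

namespace Pool.Agent.W5h26.BM

variable {M m : ℕ} {α : ℕ → Fin M → ℂ} {S : Finset ℕ} {F : ℂ → ℂ}

/-- `F` is the L-function -/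
def IsL (m : ℕ) (α : ℕ → Fin M → ℂ) (F : ℂ → ℂ) : Prop :=
  ∀ s : ℂ, (m : ℝ) + 1 / 2 < s.re →
    HasProd (fun p : ℕ => if p.Prime then fac α p s else 1) (F s)

/-- the function `G₀` -/
noncomputable def GS (m : ℕ) (S : Finset ℕ) (α : ℕ → Fin M → ℂ) (F : ℂ → ℂ) (s : ℂ) : ℂ :=
  F ((m : ℂ) + s) * bad m S α s

lemma re_add (m : ℕ) (s : ℂ) : ((m : ℂ) + s).re = m + s.re := by
  rw [Complex.add_re, Complex.natCast_re]

theorem gs_eq (H : Par m S α) (hL : IsL m α F) {s : ℂ} (hs : 1 / 2 < s.re) :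
    GS m S α F s = LE (NQ S) (al m S α) s := by
  classical
  unfold GS
  have h0 : F ((m : ℂ) + s) =
      (∏ p ∈ S.filter Nat.Prime, fac α p ((m : ℂ) + s)) * LE (NQ S) (al m S α) s :=
    (hL _ (by rw [re_add]; linarith)).unique (hasProd_all H hs)
  rw [h0]
  have h1 : (∏ p ∈ S.filter Nat.Prime, fac α p ((m : ℂ) + s)) * bad m S α s = 1 := by
    unfold bad fac
    rw [← Finset.prod_mul_distrib]
    refine Finset.prod_eq_one fun p hp => ?_
    rw [← Finset.prod_mul_distrib]
    refine Finset.prod_eq_one fun j _ => ?_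
    exact inv_mul_cancel₀ (one_sub_ne H (Finset.mem_filter.1 hp).2 j (by linarith))
  calc _ = ((∏ p ∈ S.filter Nat.Prime, fac α p ((m : ℂ) + s)) * bad m S α s) *
        LE (NQ S) (al m S α) s := by ring
    _ = _ := by rw [h1, one_mul]

lemma shift_diff {σ : ℝ} (hF : ∀ s : ℂ, m + σ < s.re → DifferentiableAt ℂ F s) {s : ℂ}
    (hs : σ < s.re) : DifferentiableAt ℂ (GS m S α F) s := by
  have h1 : DifferentiableAt ℂ F ((m : ℂ) + s) := hF _ (by
    rw [re_add]
    linarith)
  have h2 : DifferentiableAt ℂ (fun s => F ((m : ℂ) + s)) s :=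
    h1.comp (f := fun s : ℂ => (m : ℂ) + s) s (by fun_prop)
  exact h2.mul (bad_diff m S α s)

theorem gs_an (hF : AnalyticAt ℂ F m) : AnalyticAt ℂ (fun s => F ((m : ℂ) + s)) 0 ∧
    AnalyticAt ℂ (GS m S α F) 0 := by
  have h1 : AnalyticAt ℂ (fun z : ℂ => (m : ℂ) + z) 0 := by fun_prop
  have h2 : AnalyticAt ℂ (fun s => F ((m : ℂ) + s)) 0 :=
    AnalyticAt.comp (f := fun z : ℂ => (m : ℂ) + z) (by simpa using hF) h1
  exact ⟨h2, h2.mul ((bad_diff m S α).analyticAt 0)⟩

theorem bm_mh (H : Par m S α) (hL : IsL m α F)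
    (hF1 : ∀ s : ℂ, (m : ℝ) < s.re → DifferentiableAt ℂ F s)
    (hF2 : AnalyticAt ℂ F m) : Mh (NQ S) (al m S α) (GS m S α F) 0 where
  E := par_sys H
  hreal := par_real H
  hG := fun s hs => shift_diff (σ := 0) (by simpa using hF1) hs
  h0 := (gs_an hF2).2
  hL := fun s hs => by rw [pow_zero, one_mul, gs_eq H hL hs]

theorem bm_mc (H : Par m S α) (hL : IsL m α F) {η C₀ : ℝ} {κ : ℕ} (hη : 0 < η)
    (hF1 : ∀ s : ℂ, m - η < s.re → DifferentiableAt ℂ F s)
    (hg : ∀ s : ℂ, m - η < s.re → ‖F s‖ ≤ C₀ * (1 + ‖s‖) ^ κ) :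
    Mc (NQ S) (al m S α) (GS m S α F) (GS m S α F) 0 κ (min η (1 / 2))
      (|C₀| * (1 + m) ^ κ * ∏ _p ∈ S.filter Nat.Prime, ∏ _j : Fin M, (2 : ℝ)) where
  E := par_sys H
  hreal := par_real H
  hη := lt_min hη (by norm_num)
  hG := fun s hs => by
    have h1 := min_le_left η (1 / 2)
    exact shift_diff (σ := -η) (fun s hs => hF1 s (by linarith)) (by linarith)
  hgrow := fun s hs => by
    have h1 := min_le_left η (1 / 2)
    have h2 := min_le_right η (1 / 2)
    unfold GS
    rw [norm_mul]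
    have e1 : ‖F ((m : ℂ) + s)‖ ≤ |C₀| * (1 + m) ^ κ * (1 + ‖s‖) ^ κ := by
      refine (hg ((m : ℂ) + s) (by
        rw [re_add]
        linarith)).trans ?_
      have h1 : 1 + ‖(m : ℂ) + s‖ ≤ (1 + m) * (1 + ‖s‖) := by
        have h3 := norm_add_le (m : ℂ) s
        rw [Complex.norm_natCast] at h3
        have h4 := norm_nonneg s
        have h5 : (0 : ℝ) ≤ m * ‖s‖ := by positivity
        nlinarith
      calc C₀ * (1 + ‖(m : ℂ) + s‖) ^ κ ≤ |C₀| * ((1 + m) * (1 + ‖s‖)) ^ κ := by
            gcongr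
            exact le_abs_self C₀
        _ = _ := by
            rw [mul_pow]
            ring
    calc ‖F ((m : ℂ) + s)‖ * ‖bad m S α s‖ ≤
        |C₀| * (1 + m) ^ κ * (1 + ‖s‖) ^ κ * ∏ _p ∈ S.filter Nat.Prime, ∏ _j : Fin M, (2 : ℝ) :=
          mul_le_mul e1 (bad_le H (by linarith)) (norm_nonneg _) (by positivity)
      _ = _ := by ring
  hΨ := fun s _ _ => by rw [pow_zero, one_mul]
  hL := fun s hs => gs_eq H hL hs

/-- the zeros -/
theorem gs_zero (H : Par m S α) {a : ℝ} (ha : 0 ≤ a) :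
    (∀ s : ℂ, a < s.re → GS m S α F s ≠ 0) ↔ ∀ s : ℂ, m + a < s.re → F s ≠ 0 := by
  constructor
  · intro h s hs h0
    have h1 := h (s - m) (by rw [Complex.sub_re, Complex.natCast_re]; linarith)
    unfold GS at h1
    rw [add_sub_cancel, h0, zero_mul] at h1
    exact h1 rfl
  · intro h s hs
    unfold GS
    exact mul_ne_zero (h _ (by rw [re_add]; linarith)) (bad_ne H (by linarith))

theorem gs_real (H : Par m S α) {a : ℝ} (ha : 0 ≤ a) :
    (∀ x : ℝ, a < x → GS m S α F x ≠ 0) ↔ ∀ x : ℝ, m + a < x → F x ≠ 0 := by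
  constructor
  · intro h x hx h0
    have h1 := h (x - m) (by linarith)
    unfold GS at h1
    push_cast at h1
    rw [add_sub_cancel, h0, zero_mul] at h1
    exact h1 rfl
  · intro h x hx
    unfold GS
    have h1 := h (m + x) (by linarith)
    push_cast at h1
    refine mul_ne_zero h1 (bad_ne H ?_)
    rw [Complex.ofReal_re]
    linarith

/-- the order after the shift -/
theorem order_shift' {c : ℂ} (hF : AnalyticAt ℂ F c) (n : ℕ) :
    analyticOrderAt (fun s => F (c + s)) 0 = n ↔ analyticOrderAt F c = n := by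
  have ht : Tendsto (fun z : ℂ => c + z) (𝓝 0) (𝓝 c) := by
    have : Continuous fun z : ℂ => c + z := by fun_prop
    simpa using this.tendsto 0
  have ht' : Tendsto (fun z : ℂ => z - c) (𝓝 c) (𝓝 0) := by
    have : Continuous fun z : ℂ => z - c := by fun_prop
    simpa using this.tendsto c
  have hF0 : AnalyticAt ℂ (fun s => F (c + s)) 0 := by
    have h1 : AnalyticAt ℂ (fun z : ℂ => c + z) 0 := by fun_prop
    exact AnalyticAt.comp (f := fun z : ℂ => c + z) (by simpa using hF) h1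
  rw [hF0.analyticOrderAt_eq_natCast, hF.analyticOrderAt_eq_natCast]
  constructor
  · rintro ⟨g, hg, hg0, he⟩
    refine ⟨fun z => g (z - c), ?_, by simpa using hg0, ?_⟩
    · have h1 : AnalyticAt ℂ (fun z : ℂ => z - c) c := by fun_prop
      exact AnalyticAt.comp (f := fun z : ℂ => z - c) (by simpa using hg) h1
    · filter_upwards [ht'.eventually he] with z hz
      have : c + (z - c) = z := by ring
      rw [this] at hz
      simpa using hz
  · rintro ⟨g, hg, hg0, he⟩
    refine ⟨fun z => g (c + z), ?_, by simpa using hg0, ?_⟩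
    · have h1 : AnalyticAt ℂ (fun z : ℂ => c + z) 0 := by fun_prop
      exact AnalyticAt.comp (f := fun z : ℂ => c + z) (by simpa using hg) h1
    · filter_upwards [ht.eventually he] with z hz
      simpa using hz

/-- the order -/
theorem gs_order (H : Par m S α) (hF : AnalyticAt ℂ F m) {r : ℕ}
    (hr : analyticOrderAt F (m : ℂ) = r) : analyticOrderAt (GS m S α F) 0 = r := by
  have h1 := (order_shift' hF r).2 hr
  have h2 := gs_an (S := S) (α := α) hF
  have h3 : analyticOrderAt (bad m S α) 0 = 0 :=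
    ((bad_diff m S α).analyticAt 0).analyticOrderAt_eq_zero.2 (bad_ne H (by simp))
  have h4 := analyticOrderAt_mul h2.1 ((bad_diff m S α).analyticAt 0)
  rw [h1, h3, add_zero] at h4
  exact h4

/-- one prime of every norm -/
theorem fib (S : Finset ℕ) : Fib (NQ S) 1 := by
  intro n G hG
  refine Finset.card_le_one.2 fun v hv w hw => ?_
  apply Subtype.ext
  exact (hG v hv).trans (hG w hw).symm

/-! ### the sums over the prime powers -/

/-- the deviation of the sum over the prime powers -/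
noncomputable def dp (m : ℕ) (S : Finset ℕ) (α : ℕ → Fin M → ℂ) (ρ y : ℝ) : ℝ :=
  -(Pl (NQ S) (al m S α) y + ρ * Real.log (Real.log y))

/-- the laws with the prime powers and with the primes are equivalent -/
theorem law_pl (H : Par m S α) (ρ t : ℝ) (ht : |t| = 1) :
    (Law fun y => max (t * dp m S α ρ y) 0) ↔
      Law fun y => max (t * dev (NQ S) (al m S α) ρ y) 0 := by
  have E := par_sys H
  obtain ⟨K, hK⟩ := dev_close E
  refine law_iff_of_close (M := K) ?_ ?_ fun y hy => ?_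
  · exact (BM.const t).mul (devP_bm E ρ)
  · exact (BM.const t).mul (dev_bm E ρ)
  · rw [← mul_sub, abs_mul, ht, one_mul, abs_sub_comm]
    exact hK ρ y hy

end Pool.Agent.W5h26.BM
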