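import Pool.Agent.W5h26.OS.Grow
import Pool.Agent.W5h26.ML.Curve
import Pool.Agent.TH270.MS.QSys
import Pool.Agent.R409.RA.Loc

/-!
# The cohomology of odd degree `2 m - 1` of varieties over the rational numbers
-/

set_option autoImplicit false

open MeasureTheory Filter Topology Set Complex
open scoped ENNReal
open Pool.Agent.TH942.ES
open Pool.Agent.TH270.MS
open Pool.Agent.W5h26.ML
open Pool.Agent.W5h26.OS

namespace Pool.Agent.W5h26.BM

variable {M m : ℕ} {α : ℕ → Fin M → ℂ} {S : Finset ℕ} {F : ℂ → ℂ}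

/-- the parameters of an Euler product of weight `2 m - 1` over `ℚ` -/
structure Par (m : ℕ) (S : Finset ℕ) (α : ℕ → Fin M → ℂ) : Prop where
  pol : ∀ p : ℕ, p.Prime → p ∉ S → ∃ P : Polynomial ℤ,
    P.map (Int.castRingHom ℂ) = ∏ j, (Polynomial.X - Polynomial.C (α p j))
  nrm : ∀ p : ℕ, p.Prime → p ∉ S → ∀ j, ‖α p j‖ = (p : ℝ) ^ ((m : ℝ) - 1 / 2)
  bad : ∀ p : ℕ, p.Prime → p ∈ S → ∀ j, ‖α p j‖ ≤ (p : ℝ) ^ ((m : ℝ) - 1 / 2)

lemma Par.le (H : Par m S α) {p : ℕ} (hp : p.Prime) (j : Fin M) :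
    ‖α p j‖ ≤ (p : ℝ) ^ ((m : ℝ) - 1 / 2) := by
  by_cases hv : p ∈ S
  · exact H.bad p hp hv j
  · exact (H.nrm p hp hv j).le

/-- good primes -/
def GP (S : Finset ℕ) (p : ℕ) : Prop := p.Prime ∧ p ∉ S

/-- the norms -/
abbrev NQ (S : Finset ℕ) : {p // GP S p} → ℕ := fun v => v.1

/-- the normalised roots -/
noncomputable def al (m : ℕ) (S : Finset ℕ) (α : ℕ → Fin M → ℂ) (v : {p // GP S p}) (j : Fin M) :
    ℂ := α v.1 j * ((√((v.1 : ℕ) : ℝ) : ℝ) : ℂ) / ((v.1 : ℕ) : ℂ) ^ m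

lemma two_le' (v : {p // GP S p}) : (2 : ℝ) ≤ ((v.1 : ℕ) : ℝ) := by exact_mod_cast v.2.1.two_le

lemma al_div (v : {p // GP S p}) (j : Fin M) :
    al m S α v j / ((√((v.1 : ℕ) : ℝ) : ℝ) : ℂ) = α v.1 j / ((v.1 : ℕ) : ℂ) ^ m := by
  have h2 := two_le' v
  have h3 : ((√((v.1 : ℕ) : ℝ) : ℝ) : ℂ) ≠ 0 := by
    have : √((v.1 : ℕ) : ℝ) ≠ 0 := (Real.sqrt_pos.2 (by linarith)).ne'
    exact_mod_cast this
  unfold al
  field_simp

lemma zv_al (v : {p // GP S p}) (j : Fin M) :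
    zv (NQ S) (al m S α) v j = α v.1 j / ((v.1 : ℕ) : ℂ) ^ m := al_div v j

lemma al_norm (H : Par m S α) (v : {p // GP S p}) (j : Fin M) : ‖al m S α v j‖ = 1 := by
  have h2 := two_le' v
  have h0 : (0 : ℝ) < ((v.1 : ℕ) : ℝ) := by linarith
  unfold al
  rw [norm_div, norm_mul, H.nrm _ v.2.1 v.2.2 j, Complex.norm_real,
    Real.norm_of_nonneg (Real.sqrt_nonneg _), norm_pow, Complex.norm_natCast, Real.sqrt_eq_rpow,
    ← Real.rpow_add h0, ← Real.rpow_natCast, ← Real.rpow_sub h0]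
  rw [show (m : ℝ) - 1 / 2 + 1 / 2 - m = 0 by ring, Real.rpow_zero]

/-- the multiset of the normalised roots is stable under conjugation -/
lemma al_conj (H : Par m S α) (v : {p // GP S p}) {Y : Type} [AddCommMonoid Y] (f : ℂ → Y) :
    ∑ j, f ((starRingEnd ℂ) (zv (NQ S) (al m S α) v j)) = ∑ j, f (zv (NQ S) (al m S α) v j) := by
  have h1 := Pool.Agent.R409.RA.conj_stable (H.pol v.1 v.2.1 v.2.2)
  have h2 : ∀ β : Fin M → ℂ, ∑ j, f (β j / ((v.1 : ℕ) : ℂ) ^ m) =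
      ((Finset.univ.val.map β).map fun z => f (z / ((v.1 : ℕ) : ℂ) ^ m)).sum := by
    intro β
    rw [Multiset.map_map]
    rfl
  have h3 : ∀ j, (starRingEnd ℂ) (zv (NQ S) (al m S α) v j) =
      (starRingEnd ℂ) (α v.1 j) / ((v.1 : ℕ) : ℂ) ^ m := by
    intro j
    rw [zv_al, map_div₀, map_pow, Complex.conj_natCast]
  simp_rw [h3, zv_al]
  rw [h2 (α v.1), h2 fun j => (starRingEnd ℂ) (α v.1 j), h1]

lemma zv_small (H : Par m S α) (v : {p // GP S p}) (j : Fin M) :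
    ‖zv (NQ S) (al m S α) v j‖ < 1 := by
  have h2 := two_le' v
  have h3 : 1 < √((v.1 : ℕ) : ℝ) := by
    rw [Real.lt_sqrt (by norm_num)]
    linarith
  unfold zv
  rw [norm_div, al_norm H, Complex.norm_real, Real.norm_of_nonneg (by linarith),
    div_lt_one (by linarith)]
  exact h3

theorem par_sys (H : Par m S α) : Sys (NQ S) (al m S α) := by
  refine q_sys (GP S) (fun p hp => hp.1) (al m S α) (fun v j => (al_norm H v j).le) fun v => ?_
  have h1 : ∀ j, al m S α v j / ((√((v.1 : ℕ) : ℝ) : ℝ) : ℂ) = zv (NQ S) (al m S α) v j :=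
    fun j => rfl
  simp only [h1]
  rw [← Complex.conj_eq_iff_im, map_sum]
  have h2 : ∀ j, (starRingEnd ℂ) (log (1 - zv (NQ S) (al m S α) v j)) =
      log (1 - (starRingEnd ℂ) (zv (NQ S) (al m S α) v j)) := by
    intro j
    rw [← Complex.log_conj]
    · congr 1
      rw [map_sub, map_one]
    · intro harg
      have h2 : ‖-zv (NQ S) (al m S α) v j‖ < 1 := by
        rw [norm_neg]
        exact zv_small H v j
      have h3 := Complex.mem_slitPlane_of_norm_lt_one h2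
      rw [← sub_eq_add_neg] at h3
      exact (Complex.mem_slitPlane_iff_arg.1 h3).1 harg
  simp_rw [h2]
  exact al_conj H v fun z => log (1 - z)

theorem par_real (H : Par m S α) (v : {p // GP S p}) (k : ℕ) :
    (∑ i, zv (NQ S) (al m S α) v i ^ k).im = 0 := by
  rw [← Complex.conj_eq_iff_im, map_sum]
  simp_rw [map_pow]
  exact al_conj H v fun z => z ^ k

/-- the local factor -/
noncomputable def fac (α : ℕ → Fin M → ℂ) (p : ℕ) (s : ℂ) : ℂ :=
  ∏ j, (1 - α p j * (p : ℂ) ^ (-s))⁻¹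

lemma cpow_eq (m : ℕ) {p : ℕ} (hp : p.Prime) (s : ℂ) :
    (p : ℂ) ^ (-((m : ℂ) + s)) = exp (-(s * Real.log p)) / (p : ℂ) ^ m := by
  have hn0 : (0 : ℝ) < p := by exact_mod_cast hp.pos
  have hnc : (p : ℂ) ≠ 0 := by exact_mod_cast hn0.ne'
  have e2 : (p : ℂ) ^ (-((m : ℂ) + s)) = (p : ℂ) ^ (-s) * (p : ℂ) ^ (-(m : ℂ)) := by
    rw [← Complex.cpow_add _ _ hnc]
    congr 1
    ring
  rw [e2, Complex.cpow_neg (p : ℂ) (m : ℂ), Complex.cpow_natCast,
    Complex.cpow_def_of_ne_zero hnc, ← Complex.ofReal_natCast, ← Complex.ofReal_log hn0.le,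
    div_eq_mul_inv]
  congr 2
  ring

theorem fac_eq (v : {p // GP S p}) (s : ℂ) :
    ∏ i, (1 - zv (NQ S) (al m S α) v i * xv (NQ S) v s)⁻¹ = fac α v.1 ((m : ℂ) + s) := by
  unfold fac
  refine Finset.prod_congr rfl fun j _ => ?_
  rw [zv_al, cpow_eq m v.2.1]
  unfold xv
  congr 2
  ring

/-- the inverse of the product of the factors at the primes in `S` -/
noncomputable def bad (m : ℕ) (S : Finset ℕ) (α : ℕ → Fin M → ℂ) (s : ℂ) : ℂ :=
  ∏ p ∈ S.filter Nat.Prime, ∏ j, (1 - α p j * (p : ℂ) ^ (-((m : ℂ) + s)))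

lemma term_lt (H : Par m S α) {p : ℕ} (hp : p.Prime) (j : Fin M) {s : ℂ}
    (hs : -(1 / 2 : ℝ) < s.re) : ‖α p j * (p : ℂ) ^ (-((m : ℂ) + s))‖ < 1 := by
  have h2 : (2 : ℝ) ≤ p := by exact_mod_cast hp.two_le
  have h0 : (0 : ℝ) < p := by linarith
  have h3 : ‖(p : ℂ) ^ (-((m : ℂ) + s))‖ = (p : ℝ) ^ (-((m : ℝ) + s.re)) := by
    rw [← Complex.ofReal_natCast, Complex.norm_cpow_eq_rpow_re_of_pos h0]
    congr 1
  rw [norm_mul, h3]
  calc ‖α p j‖ * (p : ℝ) ^ (-((m : ℝ) + s.re)) ≤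
        (p : ℝ) ^ ((m : ℝ) - 1 / 2) * (p : ℝ) ^ (-((m : ℝ) + s.re)) :=
        mul_le_mul_of_nonneg_right (H.le hp j) (by positivity)
    _ = (p : ℝ) ^ (-(1 / 2) - s.re) := by
        rw [← Real.rpow_add h0]
        congr 1
        ring
    _ < 1 := Real.rpow_lt_one_of_one_lt_of_neg (by linarith) (by linarith)

lemma one_sub_ne (H : Par m S α) {p : ℕ} (hp : p.Prime) (j : Fin M) {s : ℂ}
    (hs : -(1 / 2 : ℝ) < s.re) : 1 - α p j * (p : ℂ) ^ (-((m : ℂ) + s)) ≠ 0 := by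
  intro h0
  have h1 := term_lt H hp j hs
  rw [← sub_eq_zero.1 h0, norm_one] at h1
  exact lt_irrefl _ h1

lemma bad_ne (H : Par m S α) {s : ℂ} (hs : -(1 / 2 : ℝ) < s.re) : bad m S α s ≠ 0 := by
  unfold bad
  exact Finset.prod_ne_zero_iff.2 fun p hp => Finset.prod_ne_zero_iff.2 fun j _ =>
    one_sub_ne H (Finset.mem_filter.1 hp).2 j hs

lemma bad_diff (m : ℕ) (S : Finset ℕ) (α : ℕ → Fin M → ℂ) : Differentiable ℂ (bad m S α) := by
  have h1 : bad m S α = fun s => ∏ p ∈ S.filter Nat.Prime, ∏ j,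
      (1 - α p j * (exp (-(s * Real.log p)) / (p : ℂ) ^ m)) := by
    funext s
    unfold bad
    refine Finset.prod_congr rfl fun p hp => Finset.prod_congr rfl fun j _ => ?_
    rw [cpow_eq m (Finset.mem_filter.1 hp).2]
  rw [h1]
  refine Differentiable.fun_finsetProd fun v _ => Differentiable.fun_finsetProd fun j _ => ?_
  fun_prop

lemma bad_le (H : Par m S α) {s : ℂ} (hs : -(1 / 2 : ℝ) < s.re) :
    ‖bad m S α s‖ ≤ ∏ _p ∈ S.filter Nat.Prime, ∏ _j : Fin M, (2 : ℝ) := by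
  unfold bad
  rw [norm_prod]
  refine Finset.prod_le_prod (fun v _ => norm_nonneg _) fun p hp => ?_
  rw [norm_prod]
  refine Finset.prod_le_prod (fun j _ => norm_nonneg _) fun j _ => ?_
  have h1 := term_lt H (Finset.mem_filter.1 hp).2 j hs
  have h2 := norm_sub_le (1 : ℂ) (α p j * (p : ℂ) ^ (-((m : ℂ) + s)))
  rw [norm_one] at h2
  linarith

/-- the complete product over the primes -/
theorem hasProd_all (H : Par m S α) {s : ℂ} (hs : 1 / 2 < s.re) :
    HasProd (fun p : ℕ => if p.Prime then fac α p ((m : ℂ) + s) else 1)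
      ((∏ p ∈ S.filter Nat.Prime, fac α p ((m : ℂ) + s)) * LE (NQ S) (al m S α) s) := by
  classical
  have E := par_sys H
  have hs0 : 0 < s.re := by linarith
  have h1 := (E.gv_summable hs0).hasSum.sub (E.cx_summable hs).hasSum
  have h2 := h1.cexp
  have h3 : (exp ∘ fun v => gv (NQ S) (al m S α) v s -
      (cv (NQ S) (al m S α) v : ℂ) * xv (NQ S) v s) =
      fun v => ∏ i, (1 - zv (NQ S) (al m S α) v i * xv (NQ S) v s)⁻¹ := by
    funext v
    simp only [Function.comp_apply]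
    have e1 : gv (NQ S) (al m S α) v s - (cv (NQ S) (al m S α) v : ℂ) * xv (NQ S) v s =
        ∑ i, -log (1 - zv (NQ S) (al m S α) v i * xv (NQ S) v s) := by
      rw [E.cv_eq]
      unfold gv tz
      rw [Finset.sum_sub_distrib, ← Finset.mul_sum, Finset.sum_neg_distrib]
      ring
    rw [e1, Complex.exp_sum]
    refine Finset.prod_congr rfl fun i _ => ?_
    rw [Complex.exp_neg, Complex.exp_log]
    exact slitPlane_ne_zero (one_sub_mem (E.zx_lt hs0.le v i))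
  rw [h3] at h2
  have h4 : LE (NQ S) (al m S α) s = exp (∑' v, gv (NQ S) (al m S α) v s -
      ∑' v, (cv (NQ S) (al m S α) v : ℂ) * xv (NQ S) v s) := h2.tprod_eq
  rw [← h4] at h2
  simp only [fac_eq] at h2
  -- the good part as a product over `ℕ`
  have h5 : HasProd (fun p : ℕ => if GP S p then fac α p ((m : ℂ) + s) else 1)
      (LE (NQ S) (al m S α) s) := by
    have h6 : (fun p : ℕ => if GP S p then fac α p ((m : ℂ) + s) else 1) =
        ({p | GP S p} : Set ℕ).mulIndicator fun p => fac α p ((m : ℂ) + s) := by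
      funext p
      rw [Set.mulIndicator_apply]
      rfl
    rw [h6, ← hasProd_subtype_iff_mulIndicator]
    exact h2
  have h7 : HasProd (fun p : ℕ => if p ∈ S.filter Nat.Prime then fac α p ((m : ℂ) + s) else 1)
      (∏ p ∈ S.filter Nat.Prime, fac α p ((m : ℂ) + s)) := by
    have h8 : HasProd (fun p : ℕ => if p ∈ S.filter Nat.Prime then fac α p ((m : ℂ) + s) else 1)
        (∏ p ∈ S.filter Nat.Prime, (if p ∈ S.filter Nat.Prime then fac α p ((m : ℂ) + s)
          else 1)) := hasProd_prod_of_ne_finset_one fun p hp => if_neg hp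
    have h9 : ∏ p ∈ S.filter Nat.Prime, (if p ∈ S.filter Nat.Prime then fac α p ((m : ℂ) + s)
        else 1) = ∏ p ∈ S.filter Nat.Prime, fac α p ((m : ℂ) + s) :=
      Finset.prod_congr rfl fun p hp => if_pos hp
    rwa [h9] at h8
  convert h7.mul h5 using 1
  funext p
  by_cases hp : p.Prime
  · by_cases hS : p ∈ S
    · rw [if_pos hp, if_pos (Finset.mem_filter.2 ⟨hS, hp⟩), if_neg (fun h => h.2 hS), mul_one]
    · rw [if_pos hp, if_neg (fun h => hS (Finset.mem_filter.1 h).1), if_pos ⟨hp, hS⟩, one_mul]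
  · rw [if_neg hp, if_neg (fun h => hp (Finset.mem_filter.1 h).2), if_neg (fun h => hp h.1),
      one_mul]

end Pool.Agent.W5h26.BM
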